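import Pool.Agent.MPb62fd5.Defs
import Pool.Agent.MPb62fd5.FiniteTransfer

set_option autoImplicit false

namespace Pool.Agent.Results.MP_b62fd5_al.FiniteExample

open Pool.Agent.MPb62fd5

universe u v

/-- The direct square of the Paige loop over the field with two elements is a finite quasigroup
(of order `14400`) whose autoparatopism group is primitive on its cells, and which is isotopic
neither to a group nor to a Paige loop `M*(F)`, `F` a finite field. -/
theorem result :
    Finite (PaigeLoop (ZMod 2) × PaigeLoop (ZMod 2)) ∧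
    Nat.card (PaigeLoop (ZMod 2) × PaigeLoop (ZMod 2)) = 14400 ∧
    IsQuasigroup (PaigeLoop (ZMod 2) × PaigeLoop (ZMod 2)) ∧
    (∀ (G : Type u) [Group G], ¬ Isotopic (PaigeLoop (ZMod 2) × PaigeLoop (ZMod 2)) G) ∧
    (∀ (F : Type v) [Field F] [Finite F],
      ¬ Isotopic (PaigeLoop (ZMod 2) × PaigeLoop (ZMod 2)) (PaigeLoop F)) ∧
    HasPrimitiveAutoparatopismGroup (PaigeLoop (ZMod 2) × PaigeLoop (ZMod 2)) := by
  have hcard : Nat.card (PaigeLoop (ZMod 2) × PaigeLoop (ZMod 2)) = 14400 := by
    rw [← Nat.card_congr isoT, card_T2]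
  refine ⟨Finite.of_equiv _ isoT, hcard,
    IsQuasigroup.transfer isoT isoT_mul (quasigroup_of mloopT), ?_, ?_,
    HasPrimitiveAutoparatopismGroup.transfer isoT isoT_mul primitiveT⟩
  · intro G _ h
    obtain ⟨α, β, γ, h⟩ := h
    have h' : Isotopic T2 G := ⟨isoT.trans α, isoT.trans β, isoT.trans γ, fun x y => by
      simp only [Equiv.trans_apply, isoT_mul]
      exact h _ _⟩
    obtain ⟨x, y, z, hxyz⟩ := not_assoc
    have := assoc_of_group (M := T2) mloopT.one_mul mloopT.mul_one h' (x, 1) (y, 1) (z, 1)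
    exact hxyz (congrArg Prod.fst this)
  · intro F _ _ h
    obtain ⟨α, -, -, -⟩ := h
    exact card_paige_ne F (by rw [← Nat.card_congr α, hcard])

end Pool.Agent.Results.MP_b62fd5_al.FiniteExample
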