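import Pool.Agent.MPb62fd5.Defs
import Pool.Agent.MPb62fd5.Bol
import Pool.Agent.MPb62fd5.GenericPrim

set_option autoImplicit false

namespace Pool.Agent.Results.MP_b62fd5_al.InfiniteExample

open Pool.Agent.MPb62fd5

universe u v w

/-- There is a countably infinite quasigroup whose autoparatopism group is primitive on its
cells and which is isotopic neither to a group, nor to `M*(F)` for any field `F` (in particular
to no Paige loop), nor to any other Moufang loop. -/
theorem result : ∃ (T : Type) (_ : Mul T), Infinite T ∧ Countable T ∧ IsQuasigroup T ∧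
    (∀ (G : Type u) [Group G], ¬ Isotopic T G) ∧
    (∀ (F : Type v) [Field F], ¬ Isotopic T (PaigeLoop F)) ∧
    (∀ (M : Type w) [Mul M], IsMoufangLoop M → ¬ Isotopic T M) ∧
    HasPrimitiveAutoparatopismGroup T := by
  obtain ⟨inst, hq, hB, hP⟩ := Generic.exists_example
  exact ⟨ℕ, inst, inferInstance, inferInstance, hq,
    fun G _ h => hB (h.elim fun α hα => BolClosure.of_isotopic ⟨α, hα⟩ (bolClosure_group G)),
    fun F _ h => hB (h.elim fun α hα => BolClosure.of_isotopic ⟨α, hα⟩ (bolClosure_paige F)),
    fun M _ hM h => hB (h.elim fun α hα => BolClosure.of_isotopic ⟨α, hα⟩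
      (bolClosure_of_moufang M hM)), hP⟩

end Pool.Agent.Results.MP_b62fd5_al.InfiniteExample
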